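import Mathlib

/-!
Shadows of Vietoris-Rips complexes and absolute neighbourhood retracts.
-/

set_option autoImplicit false

namespace Pool.Agent.Q134.Shadow

open Topology

/-- The shadow of the Vietoris-Rips complex of `M` at scale `β`: the union of the convex hulls of the
nonempty finite subsets of `M` of diameter less than `β`. -/
def shadow {E : Type} [NormedAddCommGroup E] [NormedSpace ℝ E] (β : ℝ) (M : Set E) : Set E :=
  {x | ∃ σ : Finset E, σ.Nonempty ∧ (σ : Set E) ⊆ M ∧ Metric.diam (σ : Set E) < β ∧
    x ∈ convexHull ℝ (σ : Set E)}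

/-- Absolute neighbourhood retracts: metrizable spaces `Y` such that for every closed embedding
`f : Y → Z` into a metrizable space `Z` some neighbourhood `W` of `f(Y)` retracts onto `f(Y)`
(there is a continuous `r : W → Y` with `r (f y) = y` for all `y`). -/
def IsANR (Y : Type) [TopologicalSpace Y] : Prop :=
  TopologicalSpace.MetrizableSpace Y ∧
    ∀ (Z : Type) [TopologicalSpace Z] [TopologicalSpace.MetrizableSpace Z] (f : Y → Z),
      IsClosedEmbedding f → ∃ W ∈ 𝓝ˢ (Set.range f), ∃ r : W → Y, Continuous r ∧
        ∀ (y : Y) (w : W), (w : Z) = f y → r w = y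

end Pool.Agent.Q134.Shadow
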