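import Pool.Agent.Q134.Shadow.Defs

/-!
The example.
-/

set_option autoImplicit false

namespace Pool.Agent.Q134.Shadow

open Topology Filter

abbrev E3 := EuclideanSpace ℝ (Fin 3)

noncomputable def de (n : ℕ) : ℝ := (1 / 2) ^ (n + 1)

noncomputable def ep (n : ℕ) : ℝ := de n ^ 2 / 100

theorem de_pos (n : ℕ) : 0 < de n := by unfold de; positivity

theorem ep_pos (n : ℕ) : 0 < ep n := by
  have := de_pos n
  unfold ep; positivity

theorem de_le (n : ℕ) : de n ≤ 1 / 2 := by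
  unfold de
  rw [pow_succ]
  have : ((1 : ℝ) / 2) ^ n ≤ 1 := pow_le_one₀ (by norm_num) (by norm_num)
  linarith

theorem ep_le (n : ℕ) : ep n ≤ 1 / 400 := by
  have h1 := de_pos n
  have h2 := de_le n
  unfold ep
  nlinarith

theorem de_half {n m : ℕ} (h : n < m) : de m ≤ de n / 2 := by
  unfold de
  have h1 : ((1 : ℝ) / 2) ^ (m + 1) ≤ (1 / 2) ^ (n + 1 + 1) :=
    pow_le_pow_of_le_one (by norm_num) (by norm_num) (by omega)
  calc ((1 : ℝ) / 2) ^ (m + 1) ≤ (1 / 2) ^ (n + 1 + 1) := h1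
    _ = _ := by ring

theorem tendsto_de : Tendsto de atTop (𝓝 0) := by
  unfold de
  exact (tendsto_pow_atTop_nhds_zero_of_lt_one (by norm_num) (by norm_num)).comp
    (tendsto_add_atTop_nat 1)

/-- the points near the left end -/
noncomputable def pa (n : ℕ) : E3 := !₂[-1 / 2 + ep n, 0, de n]
/-- the points near the right end -/
noncomputable def pb (n : ℕ) : E3 := !₂[1 / 2 - ep n, 0, de n]
noncomputable def pA : E3 := !₂[-1 / 2, 0, 0]
noncomputable def pB : E3 := !₂[1 / 2, 0, 0]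
noncomputable def pc : E3 := !₂[0, -1 / 10, 0]
noncomputable def pd : E3 := !₂[0, 22 / 25, 0]

/-- the compact set -/
noncomputable def MM : Set E3 := {pc, pd} ∪ insert pA (Set.range pa) ∪ insert pB (Set.range pb)

theorem cont_mk {X : Type*} [TopologicalSpace X] {f g h : X → ℝ} (hf : Continuous f)
    (hg : Continuous g) (hh : Continuous h) : Continuous fun x => (!₂[f x, g x, h x] : E3) := by
  apply (PiLp.continuous_toLp 2 _).comp
  apply continuous_pi
  intro i
  fin_cases i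
  · exact hf
  · exact hg
  · exact hh

theorem compact_MM : IsCompact MM := by
  unfold MM
  refine IsCompact.union (IsCompact.union ?_ ?_) ?_
  · exact (Set.toFinite _).isCompact
  · apply Filter.Tendsto.isCompact_insert_range
    have hc : Continuous fun t : ℝ => (!₂[-1 / 2 + t ^ 2 / 100, 0, t] : E3) :=
      cont_mk (by fun_prop) (by fun_prop) (by fun_prop)
    have := (hc.tendsto 0).comp tendsto_de
    have e : (!₂[-1 / 2 + (0 : ℝ) ^ 2 / 100, 0, 0] : E3) = pA := by
      unfold pA; norm_num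
    rw [e] at this
    exact this
  · apply Filter.Tendsto.isCompact_insert_range
    have hc : Continuous fun t : ℝ => (!₂[1 / 2 - t ^ 2 / 100, 0, t] : E3) :=
      cont_mk (by fun_prop) (by fun_prop) (by fun_prop)
    have := (hc.tendsto 0).comp tendsto_de
    have e : (!₂[1 / 2 - (0 : ℝ) ^ 2 / 100, 0, 0] : E3) = pB := by
      unfold pB; norm_num
    rw [e] at this
    exact this

theorem dist_sq (x y : E3) : dist x y ^ 2 = (x 0 - y 0) ^ 2 + (x 1 - y 1) ^ 2 + (x 2 - y 2) ^ 2 := by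
  rw [EuclideanSpace.dist_eq, Real.sq_sqrt (Finset.sum_nonneg fun i _ => by positivity),
    Fin.sum_univ_three, Real.dist_eq, Real.dist_eq, Real.dist_eq, sq_abs, sq_abs, sq_abs]

theorem sq_lt {x y : E3} (h : dist x y < 1) :
    (x 0 - y 0) ^ 2 + (x 1 - y 1) ^ 2 + (x 2 - y 2) ^ 2 < 1 := by
  rw [← dist_sq]
  have := dist_nonneg (x := x) (y := y)
  nlinarith

/-- left points -/
def LA (p : E3) : Prop := p = pA ∨ ∃ n, p = pa n
/-- right points -/
def LB (p : E3) : Prop := p = pB ∨ ∃ n, p = pb n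

theorem LA_coord {p : E3} (h : LA p) : ∃ t : ℝ, 0 ≤ t ∧ t ≤ 1 / 2 ∧ p 0 = -1 / 2 + t ^ 2 / 100 ∧
    p 1 = 0 ∧ p 2 = t := by
  rcases h with rfl | ⟨n, rfl⟩
  · exact ⟨0, le_rfl, by norm_num, by simp [pA], by simp [pA], by simp [pA]⟩
  · exact ⟨de n, (de_pos n).le, de_le n, by simp [pa, ep], by simp [pa], by simp [pa]⟩

theorem LB_coord {p : E3} (h : LB p) : ∃ t : ℝ, 0 ≤ t ∧ t ≤ 1 / 2 ∧ p 0 = 1 / 2 - t ^ 2 / 100 ∧
    p 1 = 0 ∧ p 2 = t := by
  rcases h with rfl | ⟨n, rfl⟩
  · exact ⟨0, le_rfl, by norm_num, by simp [pB], by simp [pB], by simp [pB]⟩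
  · exact ⟨de n, (de_pos n).le, de_le n, by simp [pb, ep], by simp [pb], by simp [pb]⟩

theorem mem_MM {p : E3} (h : p ∈ MM) : p = pc ∨ p = pd ∨ LA p ∨ LB p := by
  rcases h with (h | h) | h
  · rcases h with rfl | h
    · exact Or.inl rfl
    · exact Or.inr (Or.inl h)
  · rcases h with rfl | ⟨n, rfl⟩
    · exact Or.inr (Or.inr (Or.inl (Or.inl rfl)))
    · exact Or.inr (Or.inr (Or.inl (Or.inr ⟨n, rfl⟩)))
  · rcases h with rfl | ⟨n, rfl⟩
    · exact Or.inr (Or.inr (Or.inr (Or.inl rfl)))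
    · exact Or.inr (Or.inr (Or.inr (Or.inr ⟨n, rfl⟩)))

theorem pd_LA {p : E3} (h : LA p) : ¬ dist pd p < 1 := by
  intro hd
  obtain ⟨t, h0, h1, e0, e1, e2⟩ := LA_coord h
  have := sq_lt hd
  rw [e0, e1, e2] at this
  simp only [pd, PiLp.toLp_apply, Matrix.cons_val_zero, Matrix.cons_val_one, Matrix.cons_val] at this
  nlinarith [mul_nonneg h0 h0]

theorem pd_LB {p : E3} (h : LB p) : ¬ dist pd p < 1 := by
  intro hd
  obtain ⟨t, h0, h1, e0, e1, e2⟩ := LB_coord h
  have := sq_lt hd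
  rw [e0, e1, e2] at this
  simp only [pd, PiLp.toLp_apply, Matrix.cons_val_zero, Matrix.cons_val_one, Matrix.cons_val] at this
  nlinarith [mul_nonneg h0 h0]

theorem far_of {p q : E3} {s t : ℝ} (hs : 0 ≤ s) (ht : 0 ≤ t) (hst : s ≤ t / 2) (_ : t ≤ 1 / 2)
    (hp : p 0 = -1 / 2 + s ^ 2 / 100) (hp2 : p 2 = s)
    (hq : q 0 = 1 / 2 - t ^ 2 / 100) (hq2 : q 2 = t) : ¬ dist p q < 1 := by
  intro hd
  have := sq_lt hd
  rw [hp, hp2, hq, hq2] at this
  have h1 : (p 1 - q 1) ^ 2 ≥ 0 := sq_nonneg _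
  have h2 : (s - t) ^ 2 ≥ t ^ 2 / 4 := by nlinarith
  have h3 : s ^ 2 ≤ t ^ 2 / 4 := by nlinarith
  have h4 : t ^ 2 ≤ 1 / 4 := by nlinarith
  nlinarith [sq_nonneg s, sq_nonneg t]

theorem far_of' {p q : E3} {s t : ℝ} (hs : 0 ≤ s) (_ : 0 ≤ t) (hst : t ≤ s / 2) (_ : s ≤ 1 / 2)
    (hp : p 0 = -1 / 2 + s ^ 2 / 100) (hp2 : p 2 = s)
    (hq : q 0 = 1 / 2 - t ^ 2 / 100) (hq2 : q 2 = t) : ¬ dist p q < 1 := by
  intro hd
  have := sq_lt hd
  rw [hp, hp2, hq, hq2] at this
  have h1 : (p 1 - q 1) ^ 2 ≥ 0 := sq_nonneg _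
  have h2 : (s - t) ^ 2 ≥ s ^ 2 / 4 := by nlinarith
  have h3 : t ^ 2 ≤ s ^ 2 / 4 := by nlinarith
  have h4 : s ^ 2 ≤ 1 / 4 := by nlinarith
  nlinarith [sq_nonneg s, sq_nonneg t]

theorem pa_zero (n : ℕ) : (pa n) 0 = -1 / 2 + de n ^ 2 / 100 := by simp [pa, ep]
theorem pa_two (n : ℕ) : (pa n) 2 = de n := by simp [pa]
theorem pb_zero (n : ℕ) : (pb n) 0 = 1 / 2 - de n ^ 2 / 100 := by simp [pb, ep]
theorem pb_two (n : ℕ) : (pb n) 2 = de n := by simp [pb]

/-- adjacent left and right points have the same index -/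
theorem adj_LA_LB {p q : E3} (hp : LA p) (hq : LB q) (h : dist p q < 1) :
    ∃ n, p = pa n ∧ q = pb n := by
  rcases hp with rfl | ⟨n, rfl⟩
  · exfalso
    obtain ⟨t, h0, h1, e0, -, e2⟩ := LB_coord hq
    exact far_of (s := 0) le_rfl h0 (by linarith) h1 (by simp [pA]) (by simp [pA]) e0 e2 h
  · rcases hq with rfl | ⟨m, rfl⟩
    · exfalso
      exact far_of' (t := 0) (de_pos n).le le_rfl (by have := de_pos n; linarith) (de_le n)
        (pa_zero n) (pa_two n) (by simp [pB]) (by simp [pB]) h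
    · rcases lt_trichotomy n m with h1 | rfl | h1
      · exfalso
        exact far_of' (de_pos n).le (de_pos m).le (de_half h1) (de_le n)
          (pa_zero n) (pa_two n) (pb_zero m) (pb_two m) h
      · exact ⟨n, rfl, rfl⟩
      · exfalso
        exact far_of (de_pos n).le (de_pos m).le (de_half h1) (de_le m)
          (pa_zero n) (pa_two n) (pb_zero m) (pb_two m) h

theorem pa_inj {n m : ℕ} (h : pa n = pa m) : n = m := by
  have h2 : de n = de m := by rw [← pa_two, ← pa_two, h]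
  rcases lt_trichotomy n m with h1 | h1 | h1
  · have := de_half h1
    have := de_pos n
    linarith
  · exact h1
  · have := de_half h1
    have := de_pos m
    linarith

/-- affine functions and convex hulls -/
theorem hull_le {σ : Set E3} {x : E3} (hx : x ∈ convexHull ℝ σ) (a b c r : ℝ)
    (h : ∀ p ∈ σ, a * p 0 + b * p 1 + c * p 2 ≤ r) : a * x 0 + b * x 1 + c * x 2 ≤ r := by
  have hc : Convex ℝ {p : E3 | a * p 0 + b * p 1 + c * p 2 ≤ r} := by
    intro p hp q hq s t hs ht hst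
    change a * p 0 + b * p 1 + c * p 2 ≤ r at hp
    change a * q 0 + b * q 1 + c * q 2 ≤ r at hq
    change a * (s • p + t • q) 0 + b * (s • p + t • q) 1 + c * (s • p + t • q) 2 ≤ r
    simp only [PiLp.add_apply, PiLp.smul_apply, smul_eq_mul]
    have h1 := mul_le_mul_of_nonneg_left hp hs
    have h2 := mul_le_mul_of_nonneg_left hq ht
    have h3 : s * r + t * r = r := by rw [← add_mul, hst, one_mul]
    linarith
  exact convexHull_min h hc hx

theorem hull_eq {σ : Set E3} {x : E3} (hx : x ∈ convexHull ℝ σ) (a b c r : ℝ)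
    (h : ∀ p ∈ σ, a * p 0 + b * p 1 + c * p 2 = r) : a * x 0 + b * x 1 + c * x 2 = r := by
  apply le_antisymm (hull_le hx a b c r fun p hp => (h p hp).le)
  have := hull_le hx (-a) (-b) (-c) (-r) fun p hp => by
    have := h p hp
    linarith
  linarith

/-- the shadow near the origin -/
theorem local_shadow {x : E3} (hx : x ∈ shadow 1 MM) (h1 : |x 0| < 1 / 25) (h2 : -1 / 25 < x 1) :
    x 2 / (1 + 10 * x 1) ∈ ({0} ∪ Set.range de : Set ℝ) := by
  obtain ⟨σ, hne, hM, hdiam, hxs⟩ := hx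
  have hd : ∀ p ∈ σ, ∀ q ∈ σ, dist p q < 1 := fun p hp q hq =>
    (Metric.dist_le_diam_of_mem σ.finite_toSet.isBounded hp hq).trans_lt hdiam
  obtain ⟨h3, h4⟩ := abs_lt.1 h1
  by_cases hdm : pd ∈ σ
  · left
    have h5 : ∀ p ∈ (σ : Set E3), 0 * p 0 + 0 * p 1 + 1 * p 2 = 0 := by
      intro p hp
      rcases mem_MM (hM hp) with rfl | rfl | h | h
      · simp [pc]
      · simp [pd]
      · exact absurd (hd pd hdm p hp) (pd_LA h)
      · exact absurd (hd pd hdm p hp) (pd_LB h)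
    have := hull_eq hxs 0 0 1 0 h5
    have h6 : x 2 = 0 := by linarith
    rw [h6, zero_div]
    rfl
  · by_cases hA : ∃ p ∈ σ, LA p
    · by_cases hB : ∃ q ∈ σ, LB q
      · right
        obtain ⟨p, hp, hpA⟩ := hA
        obtain ⟨q, hq, hqB⟩ := hB
        obtain ⟨n, rfl, rfl⟩ := adj_LA_LB hpA hqB (hd p hp q hq)
        refine ⟨n, ?_⟩
        have h5 : ∀ p ∈ (σ : Set E3), 0 * p 0 + (-10 * de n) * p 1 + 1 * p 2 = de n := by
          intro p' hp'
          rcases mem_MM (hM hp') with rfl | rfl | h | h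
          · simp [pc]
            ring
          · exact absurd hp' hdm
          · obtain ⟨m, rfl, h6⟩ := adj_LA_LB h hqB (hd p' hp' _ hq)
            have h7 : de m = de n := by rw [← pb_two, ← pb_two, h6]
            rw [pa_two, h7]
            simp [pa]
          · obtain ⟨m, h6, rfl⟩ := adj_LA_LB hpA h (hd _ hp p' hp')
            rw [← pa_inj h6, pb_two]
            simp [pb]
        have h8 := hull_eq hxs 0 (-10 * de n) 1 (de n) h5
        rw [eq_div_iff (by linarith)]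
        linarith
      · exfalso
        have h5 : ∀ p ∈ (σ : Set E3), 1 * p 0 + 4 * p 1 + 0 * p 2 ≤ -2 / 5 := by
          intro p hp
          rcases mem_MM (hM hp) with rfl | rfl | h | h
          · simp [pc]
            norm_num
          · exact absurd hp hdm
          · obtain ⟨t, g0, g1, e0, e1, e2⟩ := LA_coord h
            rw [e0, e1, e2]
            nlinarith
          · exact absurd ⟨p, hp, h⟩ hB
        have := hull_le hxs 1 4 0 (-2 / 5) h5
        linarith
    · exfalso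
      have h5 : ∀ p ∈ (σ : Set E3), (-1) * p 0 + 4 * p 1 + 0 * p 2 ≤ -2 / 5 := by
        intro p hp
        rcases mem_MM (hM hp) with rfl | rfl | h | h
        · simp [pc]
          norm_num
        · exact absurd hp hdm
        · exact absurd ⟨p, hp, h⟩ hA
        · obtain ⟨t, g0, g1, e0, e1, e2⟩ := LB_coord h
          rw [e0, e1, e2]
          nlinarith
      have := hull_le hxs (-1) 4 0 (-2 / 5) h5
      linarith

theorem segment_mem_shadow {p q x : E3} (hp : p ∈ MM) (hq : q ∈ MM) (hd : dist p q < 1)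
    (hx : x ∈ segment ℝ p q) : x ∈ shadow 1 MM := by
  classical
  refine ⟨{p, q}, ⟨p, by simp⟩, ?_, ?_, ?_⟩
  · intro y hy
    simp only [Finset.coe_insert, Finset.coe_singleton, Set.mem_insert_iff,
      Set.mem_singleton_iff] at hy
    rcases hy with rfl | rfl
    · exact hp
    · exact hq
  · rw [Finset.coe_insert, Finset.coe_singleton, Metric.diam_pair]
    exact hd
  · rw [Finset.coe_insert, Finset.coe_singleton, convexHull_pair]
    exact hx

theorem pc_mem : pc ∈ MM := Or.inl (Or.inl (Or.inl rfl))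
theorem pd_mem : pd ∈ MM := Or.inl (Or.inl (Or.inr rfl))
theorem pa_mem (n : ℕ) : pa n ∈ MM := Or.inl (Or.inr (Or.inr ⟨n, rfl⟩))
theorem pb_mem (n : ℕ) : pb n ∈ MM := Or.inr (Or.inr ⟨n, rfl⟩)

theorem lt_of_sq {x y : E3} (h : (x 0 - y 0) ^ 2 + (x 1 - y 1) ^ 2 + (x 2 - y 2) ^ 2 < 1) :
    dist x y < 1 := by
  rw [← dist_sq] at h
  have := dist_nonneg (x := x) (y := y)
  nlinarith

theorem zero_mem : (0 : E3) ∈ shadow 1 MM := by
  apply segment_mem_shadow pc_mem pd_mem
  · apply lt_of_sq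
    simp [pc, pd]
    norm_num
  · refine ⟨44 / 49, 5 / 49, by norm_num, by norm_num, by norm_num, ?_⟩
    ext i
    fin_cases i <;> simp [pc, pd]
    norm_num

/-- the points which converge to the origin -/
noncomputable def qq (n : ℕ) : E3 := !₂[0, 0, de n]

theorem qq_mem (n : ℕ) : qq n ∈ shadow 1 MM := by
  apply segment_mem_shadow (pa_mem n) (pb_mem n)
  · apply lt_of_sq
    rw [pa_zero, pb_zero, pa_two, pb_two]
    have e1 : (pa n) 1 = 0 := by simp [pa]
    have e2 : (pb n) 1 = 0 := by simp [pb]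
    rw [e1, e2]
    have h1 := de_pos n
    have h2 := de_le n
    have h3 : 0 < de n ^ 2 := by positivity
    have h4 : de n ^ 2 ≤ 1 / 4 := by nlinarith
    nlinarith
  · refine ⟨1 / 2, 1 / 2, by norm_num, by norm_num, by norm_num, ?_⟩
    ext i
    fin_cases i
    · simp [pa, pb, qq]
      ring
    · simp [pa, pb, qq]
    · simp [pa, pb, qq]
      ring

end Pool.Agent.Q134.Shadow
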