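import Pool.Agent.Q134.Shadow.Ex

/-!
The shadow of the example is not an absolute neighbourhood retract.
-/

set_option autoImplicit false

namespace Pool.Agent.Q134.Shadow

open Topology Filter

/-- the space into which the shadow is embedded -/
def ZZ : Type := {w : E3 × ℝ // 0 < w.2 ∨ (w.2 = 0 ∧ w.1 ∈ shadow 1 MM)}

noncomputable instance : MetricSpace ZZ := inferInstanceAs (MetricSpace (Subtype _))

/-- the embedding -/
def emb (x : shadow 1 MM) : ZZ := ⟨(x.1, 0), Or.inr ⟨rfl, x.2⟩⟩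

theorem cont_fst : Continuous fun w : ZZ => w.1.1 := continuous_fst.comp continuous_subtype_val
theorem cont_snd : Continuous fun w : ZZ => w.1.2 := continuous_snd.comp continuous_subtype_val

theorem emb_closed : IsClosedEmbedding emb := by
  have hc : Continuous emb :=
    Continuous.subtype_mk (continuous_subtype_val.prodMk continuous_const) _
  refine ⟨?_, ?_⟩
  · have h1 : IsEmbedding (fun x : E3 => (x, (0 : ℝ))) :=
      Function.LeftInverse.isEmbedding (f := Prod.fst) (fun x => rfl) continuous_fst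
        (continuous_id.prodMk continuous_const)
    have h2 : IsEmbedding (fun x : shadow 1 MM => (x.1, (0 : ℝ))) := h1.comp IsEmbedding.subtypeVal
    exact IsEmbedding.of_comp hc continuous_subtype_val h2
  · have : Set.range emb = (fun w : ZZ => w.1.2) ⁻¹' {0} := by
      ext w
      constructor
      · rintro ⟨x, rfl⟩
        rfl
      · intro hw
        have hw' : w.1.2 = 0 := hw
        rcases w.2 with h | ⟨-, h⟩
        · exact absurd hw' h.ne'
        · exact ⟨⟨w.1.1, h⟩, Subtype.ext (Prod.ext rfl hw'.symm)⟩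
    rw [this]
    exact isClosed_singleton.preimage cont_snd

theorem qq_zero (n : ℕ) : (qq n) 0 = 0 := by simp [qq]
theorem qq_one (n : ℕ) : (qq n) 1 = 0 := by simp [qq]
theorem qq_two (n : ℕ) : (qq n) 2 = de n := by simp [qq]

theorem norm_qq (n : ℕ) : ‖qq n‖ = de n := by
  rw [EuclideanSpace.norm_eq, Fin.sum_univ_three, qq_zero, qq_one, qq_two]
  simp only [norm_zero, Real.norm_eq_abs, sq_abs]
  rw [show (0 : ℝ) ^ 2 + 0 ^ 2 + de n ^ 2 = de n ^ 2 by ring, Real.sqrt_sq (de_pos n).le]

/-- the path in `ZZ` from the origin to `qq n` -/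
noncomputable def path (n : ℕ) (ρ : ℝ) (hρ : 0 < ρ) (τ : Set.Icc (0 : ℝ) 3) : ZZ :=
  ⟨((max 0 (min 1 (τ.1 - 1))) • qq n, ρ / 2 * min (min τ.1 1) (3 - τ.1)), by
    rcases τ with ⟨t, ht0, ht3⟩
    rcases ht0.eq_or_lt with h | h
    · right
      subst h
      refine ⟨by norm_num, ?_⟩
      have : max (0 : ℝ) (min 1 (0 - 1)) = 0 := by norm_num
      change max (0 : ℝ) (min 1 (0 - 1)) • qq n ∈ _
      rw [this, zero_smul]
      exact zero_mem
    rcases ht3.eq_or_lt with h' | h'
    · right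
      subst h'
      refine ⟨by norm_num, ?_⟩
      have : max (0 : ℝ) (min 1 (3 - 1)) = 1 := by norm_num
      change max (0 : ℝ) (min 1 (3 - 1)) • qq n ∈ _
      rw [this, one_smul]
      exact qq_mem n
    · left
      change 0 < ρ / 2 * min (min t 1) (3 - t)
      have : 0 < min (min t 1) (3 - t) := lt_min (lt_min h one_pos) (by linarith)
      positivity⟩

theorem path_cont (n : ℕ) (ρ : ℝ) (hρ : 0 < ρ) : Continuous (path n ρ hρ) := by
  apply Continuous.subtype_mk
  fun_prop

theorem not_anr : ¬ IsANR (shadow 1 MM) := by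
  rintro ⟨-, h⟩
  obtain ⟨W, hW, r, hrc, hr⟩ := h ZZ emb emb_closed
  have hWn : ∀ x, W ∈ 𝓝 (emb x) := fun x => by
    rw [mem_nhdsSet_iff_forall] at hW
    exact hW _ ⟨x, rfl⟩
  have hWm : ∀ x, emb x ∈ W := fun x => mem_of_mem_nhds (hWn x)
  let o : shadow 1 MM := ⟨0, zero_mem⟩
  -- the neighbourhood of the origin in the shadow
  let U : Set (shadow 1 MM) := {p | |p.1 0| < 1 / 25 ∧ -1 / 25 < p.1 1}
  have hc0 : Continuous fun p : shadow 1 MM => p.1 0 := by fun_prop
  have hc1 : Continuous fun p : shadow 1 MM => p.1 1 := by fun_prop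
  have hc2 : Continuous fun p : shadow 1 MM => p.1 2 := by fun_prop
  have hUo : IsOpen U := (isOpen_lt hc0.abs continuous_const).inter (isOpen_lt continuous_const hc1)
  have hoU : o ∈ U := by
    change |(0 : E3) 0| < 1 / 25 ∧ -1 / 25 < (0 : E3) 1
    simp
    norm_num
  have ho : r ⟨emb o, hWm o⟩ = o := hr o _ rfl
  -- a ball in `ZZ` which is mapped into `U`
  have h1 : r ⁻¹' U ∈ 𝓝 (⟨emb o, hWm o⟩ : W) :=
    hrc.continuousAt.preimage_mem_nhds (by rw [ho]; exact hUo.mem_nhds hoU)
  rw [nhds_subtype_eq_comap, Filter.mem_comap] at h1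
  obtain ⟨V, hV, hVU⟩ := h1
  obtain ⟨ρ, hρ, hball⟩ := Metric.mem_nhds_iff.1 (Filter.inter_mem hV (hWn o))
  obtain ⟨n, hn⟩ := (tendsto_de.eventually (gt_mem_nhds hρ)).exists
  -- the path stays in the ball
  have hin : ∀ τ, path n ρ hρ τ ∈ V ∩ W := by
    intro τ
    apply hball
    rw [Metric.mem_ball]
    change dist ((path n ρ hρ τ).1) ((emb o).1) < ρ
    rw [Prod.dist_eq]
    apply max_lt
    · change dist ((max 0 (min 1 (τ.1 - 1))) • qq n) (0 : E3) < ρ
      rw [dist_zero_right, norm_smul, norm_qq, Real.norm_eq_abs, abs_of_nonneg (le_max_left _ _)]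
      have h2 : max 0 (min 1 (τ.1 - 1)) ≤ (1 : ℝ) := max_le zero_le_one (min_le_left _ _)
      calc _ ≤ 1 * de n := mul_le_mul_of_nonneg_right h2 (de_pos n).le
        _ < ρ := by rw [one_mul]; exact hn
    · change dist (ρ / 2 * min (min τ.1 1) (3 - τ.1)) 0 < ρ
      have h2 : min (min τ.1 1) (3 - τ.1) ≤ 1 := (min_le_left _ _).trans (min_le_right _ _)
      have h3 : 0 ≤ min (min τ.1 1) (3 - τ.1) :=
        le_min (le_min τ.2.1 zero_le_one) (by linarith [τ.2.2])
      rw [Real.dist_eq, sub_zero, abs_of_nonneg (by positivity)]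
      nlinarith
  let g : Set.Icc (0 : ℝ) 3 → W := fun τ => ⟨path n ρ hρ τ, (hin τ).2⟩
  have hg : Continuous g := (path_cont n ρ hρ).subtype_mk _
  have hgU : ∀ τ, r (g τ) ∈ U := fun τ => hVU (hin τ).1
  let F : Set.Icc (0 : ℝ) 3 → ℝ := fun τ => (r (g τ)).1 2 / (1 + 10 * (r (g τ)).1 1)
  have hF : Continuous F := by
    apply Continuous.div (hc2.comp (hrc.comp hg))
      (continuous_const.add (continuous_const.mul (hc1.comp (hrc.comp hg))))
    intro τ
    have := (hgU τ).2
    have h3 : -1 / 25 < (r (g τ)).1 1 := this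
    intro h4
    have h5 : 1 + 10 * (r (g τ)).1 1 = 0 := h4
    linarith
  have hFm : ∀ τ, F τ ∈ ({0} ∪ Set.range de : Set ℝ) := fun τ =>
    local_shadow (r (g τ)).2 (hgU τ).1 (hgU τ).2
  have hcount : ({0} ∪ Set.range de : Set ℝ).Countable :=
    (Set.countable_singleton 0).union (Set.countable_range de)
  have : PreconnectedSpace (Set.Icc (0 : ℝ) 3) :=
    isPreconnected_iff_preconnectedSpace.1 isPreconnected_Icc
  have hsub : (Set.range F).Subsingleton :=
    hcount.isTotallyDisconnected _ (by rintro _ ⟨τ, rfl⟩; exact hFm τ)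
      (isPreconnected_range hF)
  have e0 : F ⟨0, by norm_num⟩ = 0 := by
    have h2 : (g ⟨0, by norm_num⟩ : ZZ) = emb o := by
      apply Subtype.ext
      apply Prod.ext
      · change max (0 : ℝ) (min 1 (0 - 1)) • qq n = 0
        have : max (0 : ℝ) (min 1 (0 - 1)) = 0 := by norm_num
        rw [this, zero_smul]
      · change ρ / 2 * min (min (0 : ℝ) 1) (3 - 0) = 0
        norm_num
    have h3 := hr o _ h2
    change (r (g ⟨0, by norm_num⟩)).1 2 / _ = 0
    rw [h3]
    change (0 : E3) 2 / _ = 0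
    simp
  have e3 : F ⟨3, by norm_num⟩ = de n := by
    have h2 : (g ⟨3, by norm_num⟩ : ZZ) = emb ⟨qq n, qq_mem n⟩ := by
      apply Subtype.ext
      apply Prod.ext
      · change max (0 : ℝ) (min 1 (3 - 1)) • qq n = qq n
        have : max (0 : ℝ) (min 1 (3 - 1)) = 1 := by norm_num
        rw [this, one_smul]
      · change ρ / 2 * min (min (3 : ℝ) 1) (3 - 3) = 0
        norm_num
    have h3 := hr ⟨qq n, qq_mem n⟩ _ h2
    change (r (g ⟨3, by norm_num⟩)).1 2 / (1 + 10 * (r (g ⟨3, by norm_num⟩)).1 1) = de n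
    rw [h3]
    change (qq n) 2 / (1 + 10 * (qq n) 1) = de n
    rw [qq_one, qq_two]
    norm_num
  have h9 : F ⟨0, by norm_num⟩ = F ⟨3, by norm_num⟩ :=
    hsub (Set.mem_range_self _) (Set.mem_range_self _)
  rw [e0, e3] at h9
  exact (de_pos n).ne h9

end Pool.Agent.Q134.Shadow
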